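import Pool.Agent.Lib.MP_a17b09_nt.TP79.Core
import Pool.Agent.Lib.MP_a17b09_nt.SPH.Fin99

/-!
Project TP79 (MP_a17b09_nt): parity patterns of length three, every nonsquare discriminant.
-/

set_option autoImplicit false

open Filter Topology Finset

namespace Pool.Agent.Lib.MP_a17b09_nt.TP79

open Pool.Agent.Lib.MP_a17b09_nt.CH Pool.Agent.Lib.MP_a17b09_nt.HY Pool.Agent.Lib.MP_a17b09_nt.SP
open Pool.Agent.Lib.MP_a17b09_nt.SPH Pool.Agent.Lib.MP_a17b09_nt.SPH.FinA11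

theorem fv_ne {a b c : ℤ} (hns : ¬ IsSquare (b ^ 2 - 4 * a * c)) (t : ℕ) : fv a b c t ≠ 0 := by
  intro h0
  apply hns
  unfold fv at h0
  exact ⟨2 * a * t + b, by linear_combination (-4 * a) * h0⟩

/-- the inputs for one polynomial and one window -/
theorem input {a b c : ℤ} (ha : 0 < a) (hns : ¬ IsSquare (b ^ 2 - 4 * a * c))
    {h : ℕ} (hh : 0 < h) (t₀ : ℕ) {α β : ℝ} (hα : 0 < α) (hαβ : α < β) :
    OnP a b c h t₀ α β ∧ TwNull a b c h t₀ α β ∧ ∃ κ : ℝ, 0 < κ ∧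
      Tendsto (fun N : ℕ => (pairCount a b c h t₀ α β (fun _ _ => True) N : ℝ) / N) atTop
        (𝓝 κ) := by
  have hf := fv_ne hns
  have hD : b ^ 2 - 4 * a * c ≠ 0 := fun hD => hns (hD ▸ (⟨0, by ring⟩ : IsSquare (0 : ℤ)))
  rcases lt_or_gt_of_ne hD with hD | hD
  · obtain ⟨d, hd⟩ := Int.eq_ofNat_of_zero_le (a := 4 * a * c - b ^ 2) (by linarith)
    have hd0 : 0 < d := by
      have : (0 : ℤ) < d := by rw [← hd]; linarith
      exact_mod_cast this
    refine ⟨F64.stOn_all a b c ha hD h hh t₀ α β hα hαβ, ?_, ?_⟩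
    · intro z1 z2 k hk h1 h2 h3 o1 o2 ho M
      exact stTwP_all a b c d ha hd0 hd (inA_G hd0 mrsG_all) z1 z2 k hk h1 h2 h3 h hh t₀ α β hα
        hαβ o1 o2 ho M
    · obtain ⟨κ, hκ, hlim⟩ := F64.stMainS_all a b c ha hD h hh t₀ α β hα hαβ
      refine ⟨κ, hκ, ?_⟩
      simp only [count_true hf]
      exact hlim
  · obtain ⟨d, hd⟩ := Int.eq_ofNat_of_zero_le (le_of_lt hD)
    have hns' : ¬ IsSquare d := by
      rintro ⟨y, hy⟩
      apply hns
      rw [hd, hy]
      exact ⟨(y : ℤ), by push_cast; ring⟩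
    refine ⟨TopH20.hOn a b c ha d hd hns' h hh t₀ α β hα hαβ,
      stHTwP_all a b c ha d hd hns' (inH_99 TopH20.hAm hEsAll_all d) h hh t₀ α β hα hαβ, ?_⟩
    obtain ⟨κ, hκ, hlim⟩ := TopH20.hMainS a b c ha d hd hns' h hh t₀ α β hα hαβ
    refine ⟨κ, hκ, ?_⟩
    simp only [count_true hf]
    exact hlim

/-- the law of two slots -/
theorem plaw_slot {a b c : ℤ} {h t₀ : ℕ} {α β κ : ℝ} (hf : ∀ t : ℕ, fv a b c t ≠ 0)
    (hO : OnP a b c h t₀ α β) (hT : TwNull a b c h t₀ α β)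
    (hκ : Tendsto (fun N : ℕ => (pairCount a b c h t₀ α β (fun _ _ => True) N : ℝ) / N) atTop
      (𝓝 κ)) {o1 o2 : Option ℕ} (ho : o1 ≠ o2) :
    PLaw a b c h t₀ α β κ (fun t d => Omn (eslot a b c t d o1))
      (fun t d => Omn (eslot a b c t d o2)) := by
  intro r s ε hε
  refine pair_null hf hO _ (κ / 4) (fun M => ?_) hε
  have h1 := pair_law hf hO hκ hT two_pos o1 o2 ho r s M
  have h4 : (κ / ((2 : ℕ) : ℝ) ^ 2) = κ / 4 := by norm_num
  rw [h4] at h1
  exact h1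

/-- the law of two values -/
theorem plaw_val {a b c : ℤ} {h t₀ : ℕ} {α β κ : ℝ} (hf : ∀ t : ℕ, fv a b c t ≠ 0)
    (hO : OnP a b c h t₀ α β) (hT : TwNull a b c h t₀ α β)
    (hκ : Tendsto (fun N : ℕ => (pairCount a b c h t₀ α β (fun _ _ => True) N : ℝ) / N) atTop
      (𝓝 κ)) {j l : ℕ} (hjl : j ≠ l) :
    PLaw a b c h t₀ α β κ (fun t d => Om a b c (t + j * d)) (fun t d => Om a b c (t + l * d)) := by
  intro r s ε hε
  exact pair_null hf hO _ (κ / 4) (fun M => sgn_law hf hO hκ hT j l hjl r s M) hε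

/-- the window of the shift -/
theorem window {α β : ℝ} (hα : 0 < α) (hβ : 0 < β) {j : ℕ} (hj : (j : ℝ) < 1 / α - 1 / β) :
    0 < 1 - j * α ∧ α / (1 - j * α) < β ∧ α ≤ α / (1 - j * α) ∧
    ∀ t d : ℕ, α / (1 - j * α) * t ≤ d → α * (t + j * d) ≤ d := by
  have hb : 0 < 1 / β := by positivity
  have h1 : (j : ℝ) * α < 1 := by
    have h2 : (j : ℝ) < 1 / α := by linarith
    rwa [lt_div_iff₀ hα] at h2
  have h2 : 0 < 1 - j * α := by linarith
  have h3 : 1 - j * α ≤ 1 := by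
    have : (0 : ℝ) ≤ j * α := by positivity
    linarith
  refine ⟨h2, ?_, ?_, ?_⟩
  · rw [div_lt_iff₀ h2]
    have h4 : (j : ℝ) * (α * β) < (1 / α - 1 / β) * (α * β) :=
      mul_lt_mul_of_pos_right hj (by positivity)
    have h5 : (1 / α - 1 / β) * (α * β) = β - α := by
      field_simp
    rw [h5] at h4
    nlinarith
  · rw [le_div_iff₀ h2]
    nlinarith
  · intro t d h4
    rw [div_mul_eq_mul_div, div_le_iff₀ h2] at h4
    nlinarith

/-- **All eight parity patterns** of `f t`, `f (t + j d)`, `f (t + 2 j d)` and of `d`, `f t / d`,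
`f (t + j d) / d`. -/
theorem three_all {a b c : ℤ} (ha : 0 < a) (hns : ¬ IsSquare (b ^ 2 - 4 * a * c))
    {h : ℕ} (hh : 0 < h) (t₀ : ℕ) {α β : ℝ} (hα : 0 < α) (hαβ : α < β) {j : ℕ} (hj0 : 0 < j)
    (hj : h ∣ j) (hjl : (j : ℝ) < 1 / α - 1 / β) (r s u : ℕ) :
    (∃ c' : ℝ, 0 < c' ∧ ∀ᶠ N : ℕ in atTop, c' * N ≤ (pairCount a b c h t₀ α β (fun t d =>
      Om a b c t ≡ r [MOD 2] ∧ Om a b c (t + j * d) ≡ s [MOD 2] ∧
      Om a b c (t + 2 * j * d) ≡ u [MOD 2]) N : ℝ)) ∧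
    ∃ c' : ℝ, 0 < c' ∧ ∀ᶠ N : ℕ in atTop, c' * N ≤ (pairCount a b c h t₀ α β (fun t d =>
      Omn d ≡ r [MOD 2] ∧ Omn ((fv a b c t).natAbs / d) ≡ s [MOD 2] ∧
      Omn ((fv a b c (t + j * d)).natAbs / d) ≡ u [MOD 2]) N : ℝ) := by
  have hf := fv_ne hns
  have hβ : 0 < β := hα.trans hαβ
  obtain ⟨w1, w2, w3, w4⟩ := window hα hβ hjl
  obtain ⟨hO, hT, κ, hκ, hlim⟩ := input ha hns hh t₀ hα hαβ
  obtain ⟨hO', hT', κ', hκ', hlim'⟩ := input ha hns hh t₀ (div_pos hα w1) w2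
  obtain ⟨K, hK⟩ := exists_nat_ge (1 + j * β)
  constructor
  · have h1 := three (h := h) (t₀ := t₀) hf hj w4 w3 hβ.le hK hκ'
      (plaw_val hf hO hT hlim (show (0 : ℕ) ≠ j by omega))
      (plaw_val hf hO hT hlim (show (0 : ℕ) ≠ 2 * j by omega))
      (plaw_val hf hO hT hlim (show j ≠ 2 * j by omega))
      (plaw_val hf hO' hT' hlim' (show (0 : ℕ) ≠ 3 * j by omega)) (by
        intro t d _
        have e1 : t + j * d + 0 * d = t + j * d := by ring
        have e2 : t + j * d + j * d = t + 2 * j * d := by ring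
        have e3 : t + j * d + 2 * j * d = t + 3 * j * d := by ring
        simp only [e1, e2, e3, Nat.ModEq]
        omega) r s u
    simpa only [zero_mul, add_zero] using h1
  · have h1 := three (h := h) (t₀ := t₀) hf hj w4 w3 hβ.le hK hκ'
      (plaw_slot hf hO hT hlim (o1 := none) (o2 := some 0) (by simp))
      (plaw_slot hf hO hT hlim (o1 := none) (o2 := some j) (by simp))
      (plaw_slot hf hO hT hlim (o1 := some 0) (o2 := some j) (by
        intro h0
        have := Option.some.inj h0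
        omega))
      (plaw_slot hf hO' hT' hlim' (o1 := some 0) (o2 := some (2 * j)) (by
        intro h0
        have := Option.some.inj h0
        omega)) (by
        intro t d _
        have e1 : t + j * d + 0 * d = t + j * d := by ring
        have e2 : t + j * d + j * d = t + 2 * j * d := by ring
        simp only [eslot, e1, e2, Nat.ModEq]
        omega) r s u
    simpa only [eslot, zero_mul, add_zero] using h1

end Pool.Agent.Lib.MP_a17b09_nt.TP79
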