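import Pool.Agent.Lib.MP_a17b09_nt.SPH.FinA11

/-!
Project TP79 (MP_a17b09_nt): parity patterns of length three.  Abstract part: from the laws of pairs of
slots to all eight patterns of three slots.
-/

set_option autoImplicit false

open Filter Topology Finset

namespace Pool.Agent.Lib.MP_a17b09_nt.TP79

open Pool.Agent.Lib.MP_a17b09_nt.CH Pool.Agent.Lib.MP_a17b09_nt.SP
open Pool.Agent.Lib.MP_a17b09_nt.CH.EndS
open Pool.Agent.Lib.MP_a17b09_nt.SP.EndP27
open Pool.Agent.Lib.MP_a17b09_nt.SPH Pool.Agent.Lib.MP_a17b09_nt.SPH.FinA11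

/-! ### Rare sets of scales -/

theorem logNull_union {E E' : Set ℕ} (h : LogNull E) (h' : LogNull E') : LogNull (E ∪ E') := by
  intro ε hε
  obtain ⟨H1, h1⟩ := h (ε / 2) (by positivity)
  obtain ⟨H2, h2⟩ := h' (ε / 2) (by positivity)
  refine ⟨max H1 H2, fun H hH => ?_⟩
  obtain ⟨N1, h3⟩ := h1 H ((le_max_left _ _).trans hH)
  obtain ⟨N2, h4⟩ := h2 H ((le_max_right _ _).trans hH)
  refine ⟨max N1 N2, fun N hN => ?_⟩
  have h5 := h3 N ((le_max_left _ _).trans hN)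
  have h6 := h4 N ((le_max_right _ _).trans hN)
  have h7 : ∑ n ∈ Finset.Ioc N (2 ^ H * N), (E ∪ E').indicator (fun n => (1 : ℝ) / n) n ≤
      ∑ n ∈ Finset.Ioc N (2 ^ H * N), E.indicator (fun n => (1 : ℝ) / n) n +
      ∑ n ∈ Finset.Ioc N (2 ^ H * N), E'.indicator (fun n => (1 : ℝ) / n) n := by
    rw [← Finset.sum_add_distrib]
    refine Finset.sum_le_sum fun n _ => ?_
    have p1 : 0 ≤ E.indicator (fun n : ℕ => (1 : ℝ) / n) n :=
      Set.indicator_nonneg (fun _ _ => by positivity) _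
    have p2 : 0 ≤ E'.indicator (fun n : ℕ => (1 : ℝ) / n) n :=
      Set.indicator_nonneg (fun _ _ => by positivity) _
    by_cases hn : n ∈ E ∪ E'
    · rw [Set.indicator_of_mem hn]
      rcases hn with hn | hn
      · rw [Set.indicator_of_mem hn]
        linarith
      · rw [Set.indicator_of_mem hn]
        linarith
    · rw [Set.indicator_of_notMem hn]
      linarith
  linarith

theorem logNull_dil {E : Set ℕ} (h : LogNull E) {K : ℕ} (hK : 0 < K) :
    LogNull {N : ℕ | K * N ∈ E} := by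
  intro ε hε
  have hK0 : (0 : ℝ) < K := by exact_mod_cast hK
  obtain ⟨H1, h1⟩ := h (ε / K) (by positivity)
  refine ⟨H1, fun H hH => ?_⟩
  obtain ⟨N1, h3⟩ := h1 H hH
  refine ⟨N1, fun N hN => ?_⟩
  have h4 := h3 (K * N) (hN.trans (Nat.le_mul_of_pos_left N hK))
  have h5 : ∑ n ∈ Finset.Ioc N (2 ^ H * N), {N : ℕ | K * N ∈ E}.indicator
      (fun n => (1 : ℝ) / n) n = K * ∑ m ∈ (Finset.Ioc N (2 ^ H * N)).image (fun n => K * n),
        E.indicator (fun n => (1 : ℝ) / n) m := by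
    rw [Finset.sum_image (fun x _ y _ hxy => Nat.eq_of_mul_eq_mul_left hK hxy), Finset.mul_sum]
    refine Finset.sum_congr rfl fun n hn => ?_
    have hn0 : (0 : ℝ) < n := by
      have := (Finset.mem_Ioc.1 hn).1
      exact_mod_cast lt_of_le_of_lt (Nat.zero_le _) this
    by_cases hm : K * n ∈ E
    · rw [Set.indicator_of_mem (show n ∈ {N : ℕ | K * N ∈ E} from hm), Set.indicator_of_mem hm]
      push_cast
      field_simp
    · rw [Set.indicator_of_notMem (show n ∉ {N : ℕ | K * N ∈ E} from hm),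
        Set.indicator_of_notMem hm, mul_zero]
  rw [h5]
  have h6 : ∑ m ∈ (Finset.Ioc N (2 ^ H * N)).image (fun n => K * n),
      E.indicator (fun n => (1 : ℝ) / n) m ≤
      ∑ m ∈ Finset.Ioc (K * N) (2 ^ H * (K * N)), E.indicator (fun n => (1 : ℝ) / n) m := by
    apply Finset.sum_le_sum_of_subset_of_nonneg
    · intro m hm
      obtain ⟨n, hn, rfl⟩ := Finset.mem_image.1 hm
      rw [Finset.mem_Ioc] at hn ⊢
      refine ⟨Nat.mul_lt_mul_of_pos_left hn.1 hK, ?_⟩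
      calc K * n ≤ K * (2 ^ H * N) := Nat.mul_le_mul_left K hn.2
        _ = 2 ^ H * (K * N) := by ring
    · intro m _ _
      exact Set.indicator_nonneg (fun _ _ => by positivity) _
  calc (K : ℝ) * ∑ m ∈ (Finset.Ioc N (2 ^ H * N)).image (fun n => K * n),
        E.indicator (fun n => (1 : ℝ) / n) m ≤ K * (ε / K * H) :=
        mul_le_mul_of_nonneg_left (h6.trans h4) hK0.le
    _ = ε * H := by field_simp

/-! ### Counts as sums -/

section counts

variable {a b c : ℤ} {h t₀ : ℕ}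

open Classical in
/-- the count as a sum of indicators -/
theorem pc_sum (hf : ∀ t : ℕ, fv a b c t ≠ 0) (α β : ℝ) (P : ℕ → ℕ → Prop) (N : ℕ) :
    (pairCount a b c h t₀ α β P N : ℝ) =
      ∑ t ∈ (Finset.Icc 1 N).filter (fun t => t ≡ t₀ [MOD h]),
        ∑ d ∈ nearG a b c α β t, if P t d then (1 : ℝ) else 0 := by
  rw [count_eq hf P N, Nat.cast_sum]
  refine Finset.sum_congr rfl fun t _ => ?_
  rw [Finset.card_filter, Nat.cast_sum]
  refine Finset.sum_congr rfl fun d _ => ?_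
  split_ifs <;> simp

theorem pc_mono {α β : ℝ} (P : ℕ → ℕ → Prop) :
    Monotone (fun N : ℕ => pairCount a b c h t₀ α β P N) := by
  intro m n hmn
  exact EndT.count_mono _ hmn

/-- the shift `t → t + j d` -/
theorem pc_shift (hf : ∀ t : ℕ, fv a b c t ≠ 0) {α β α' : ℝ} {j K : ℕ} (hj : h ∣ j)
    (hα' : ∀ t d : ℕ, α' * t ≤ d → α * (t + j * d) ≤ d) (hαα : α ≤ α') (hβ : 0 ≤ β)
    (hK : 1 + j * β ≤ K) (D B : ℕ → ℕ → Prop)
    (hDB : ∀ t : ℕ, ∀ d ∈ nearG a b c α' β t, D t d → B t d ∨ B (t + j * d) d) (N : ℕ) :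
    pairCount a b c h t₀ α' β D N ≤
      pairCount a b c h t₀ α β B N + pairCount a b c h t₀ α β B (K * N) := by
  classical
  set T : ℕ → Finset ℕ := fun N => (Finset.Icc 1 N).filter (fun t => t ≡ t₀ [MOD h]) with hT
  have e : ∀ (γ : ℝ) (P : ℕ → ℕ → Prop) (N : ℕ), pairCount a b c h t₀ γ β P N =
      ((T N).sigma (fun t => (nearG a b c γ β t).filter (P t))).card := by
    intro γ P N
    rw [count_eq hf P N, Finset.card_sigma]
  rw [e, e, e]
  set S := (T N).sigma (fun t => (nearG a b c α' β t).filter (D t)) with hS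
  have hnear : ∀ t : ℕ, ∀ d ∈ nearG a b c α' β t, d ∈ nearG a b c α β t := by
    intro t d hd
    obtain ⟨h1, h2, h3⟩ := Finset.mem_filter.1 hd
    refine Finset.mem_filter.2 ⟨h1, ?_, h3⟩
    exact (mul_le_mul_of_nonneg_right hαα (Nat.cast_nonneg _)).trans h2
  have h1 : S ⊆ S.filter (fun x => B x.1 x.2) ∪ S.filter (fun x => B (x.1 + j * x.2) x.2) := by
    intro x hx
    obtain ⟨h2, h3⟩ := Finset.mem_sigma.1 hx
    obtain ⟨h4, h5⟩ := Finset.mem_filter.1 h3
    rcases hDB _ _ h4 h5 with h6 | h6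
    · exact Finset.mem_union_left _ (Finset.mem_filter.2 ⟨hx, h6⟩)
    · exact Finset.mem_union_right _ (Finset.mem_filter.2 ⟨hx, h6⟩)
  refine (Finset.card_le_card h1).trans ((Finset.card_union_le _ _).trans ?_)
  refine Nat.add_le_add ?_ ?_
  · apply Finset.card_le_card
    intro x hx
    obtain ⟨h2, h3⟩ := Finset.mem_filter.1 hx
    obtain ⟨h4, h5⟩ := Finset.mem_sigma.1 h2
    exact Finset.mem_sigma.2 ⟨h4, Finset.mem_filter.2
      ⟨hnear _ _ (Finset.mem_filter.1 h5).1, h3⟩⟩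
  · apply Finset.card_le_card_of_injOn (fun x => (⟨x.1 + j * x.2, x.2⟩ : Σ _ : ℕ, ℕ))
    · intro x hx
      obtain ⟨h2, h3⟩ := Finset.mem_filter.1 (Finset.mem_coe.1 hx)
      obtain ⟨h4, h5⟩ := Finset.mem_sigma.1 h2
      obtain ⟨h6, h7⟩ := Finset.mem_filter.1 h4
      obtain ⟨h8, h9⟩ := Finset.mem_filter.1 h5
      obtain ⟨h10, h11, h12⟩ := Finset.mem_filter.1 h8
      rw [Finset.mem_Icc] at h6
      have hd : x.2 ∣ (fv a b c x.1).natAbs := Nat.dvd_of_mem_divisors h10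
      have hdv : x.2 ∣ (fv a b c (x.1 + j * x.2)).natAbs := by
        rw [← Int.natCast_dvd] at hd ⊢
        have h2 : fv a b c (x.1 + j * x.2) = fv a b c x.1 +
            (x.2 : ℤ) * (a * (2 * x.1 * j + j ^ 2 * x.2) + b * j) := by
          rw [fv, fv]
          push_cast
          ring
        rw [h2]
        exact dvd_add hd (dvd_mul_right _ _)
      rw [Finset.mem_coe, Finset.mem_sigma]
      refine ⟨Finset.mem_filter.2 ⟨Finset.mem_Icc.2 ⟨h6.1.trans (Nat.le_add_right _ _), ?_⟩, ?_⟩,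
        Finset.mem_filter.2 ⟨Finset.mem_filter.2
          ⟨Nat.mem_divisors.2 ⟨hdv, Int.natAbs_ne_zero.2 (hf _)⟩, ?_, ?_⟩, h3⟩⟩
      · -- the range
        have h13 : ((x.1 + j * x.2 : ℕ) : ℝ) ≤ ((K * N : ℕ) : ℝ) := by
          push_cast
          have h14 : (x.1 : ℝ) ≤ N := by exact_mod_cast h6.2
          have h15 : (0 : ℝ) ≤ x.1 := Nat.cast_nonneg _
          calc (x.1 : ℝ) + j * x.2 ≤ x.1 + j * (β * x.1) := by
                have : (j : ℝ) * x.2 ≤ j * (β * x.1) :=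
                  mul_le_mul_of_nonneg_left h12 (Nat.cast_nonneg _)
                linarith
            _ = (1 + j * β) * x.1 := by ring
            _ ≤ K * N := mul_le_mul hK h14 h15 (Nat.cast_nonneg _)
        exact_mod_cast h13
      · obtain ⟨m, rfl⟩ := hj
        show x.1 + h * m * x.2 ≡ t₀ [MOD h]
        have h14 : x.1 + h * m * x.2 ≡ x.1 [MOD h] := by
          rw [mul_assoc]
          exact Nat.add_mul_mod_self_left _ _ _
        exact h14.trans h7
      · show α * ((x.1 + j * x.2 : ℕ) : ℝ) ≤ x.2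
        push_cast
        exact hα' _ _ h11
      · show (x.2 : ℝ) ≤ β * ((x.1 + j * x.2 : ℕ) : ℝ)
        push_cast
        have h14 : 0 ≤ β * (j * x.2) := by positivity
        linarith
    · rintro ⟨t, d⟩ - ⟨t', d'⟩ - hx
      simp only [Sigma.mk.injEq, heq_eq_eq] at hx
      obtain ⟨h2, rfl⟩ := hx
      have : t = t' := by omega
      rw [this]

/-- the law of a pair of parities -/
def PLaw (a b c : ℤ) (h t₀ : ℕ) (α β κ : ℝ) (X Y : ℕ → ℕ → ℕ) : Prop :=
  ∀ r s : ℕ, ∀ ε : ℝ, 0 < ε → LogNull {N : ℕ | ε * N <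
    |(pairCount a b c h t₀ α β (fun t d => X t d ≡ r [MOD 2] ∧ Y t d ≡ s [MOD 2]) N : ℝ) -
      κ / 4 * N|}

/-- the number of pairs of a parity class of patterns -/
theorem pc_parity (hf : ∀ t : ℕ, fv a b c t ≠ 0) (α β : ℝ) (X Y Z : ℕ → ℕ → ℕ) (r s u N : ℕ) :
    (pairCount a b c h t₀ α β (fun t d => X t d + Y t d + Z t d ≡ r + s + u [MOD 2]) N : ℝ) =
      4 * (pairCount a b c h t₀ α β (fun t d => X t d ≡ r [MOD 2] ∧ Y t d ≡ s [MOD 2] ∧
        Z t d ≡ u [MOD 2]) N : ℝ) +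
      (pairCount a b c h t₀ α β (fun t d => X t d ≡ r [MOD 2] ∧ Z t d ≡ u + 1 [MOD 2]) N : ℝ) -
      2 * (pairCount a b c h t₀ α β (fun t d => X t d ≡ r [MOD 2] ∧ Y t d ≡ s [MOD 2]) N : ℝ) +
      (pairCount a b c h t₀ α β (fun t d => Y t d ≡ s [MOD 2] ∧ Z t d ≡ u + 1 [MOD 2]) N : ℝ) +
      (pairCount a b c h t₀ α β (fun t d => Y t d ≡ s + 1 [MOD 2] ∧ Z t d ≡ u [MOD 2]) N : ℝ) -
      (pairCount a b c h t₀ α β (fun t d => X t d ≡ r [MOD 2] ∧ Z t d ≡ u [MOD 2]) N : ℝ) := by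
  classical
  simp only [pc_sum hf, Finset.mul_sum, ← Finset.sum_add_distrib, ← Finset.sum_sub_distrib]
  refine Finset.sum_congr rfl fun t _ => Finset.sum_congr rfl fun d _ => ?_
  have k1 : ∀ x y : ℕ, x ≡ y [MOD 2] ↔ x % 2 = y % 2 := fun x y => Iff.rfl
  simp only [k1]
  rcases Nat.mod_two_eq_zero_or_one (X t d) with hX | hX <;>
  rcases Nat.mod_two_eq_zero_or_one (Y t d) with hY | hY <;>
  rcases Nat.mod_two_eq_zero_or_one (Z t d) with hZ | hZ <;>
  rcases Nat.mod_two_eq_zero_or_one r with hr | hr <;>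
  rcases Nat.mod_two_eq_zero_or_one s with hs | hs <;>
  rcases Nat.mod_two_eq_zero_or_one u with hu | hu <;>
  simp [hX, hY, hZ, hr, hs, hu, Nat.add_mod] <;> norm_num

/-- the number of pairs with different parities -/
theorem pc_diff (hf : ∀ t : ℕ, fv a b c t ≠ 0) (α β : ℝ) (U V : ℕ → ℕ → ℕ) (N : ℕ) :
    (pairCount a b c h t₀ α β (fun t d => U t d + V t d ≡ 1 [MOD 2]) N : ℝ) =
      (pairCount a b c h t₀ α β (fun t d => U t d ≡ 0 [MOD 2] ∧ V t d ≡ 1 [MOD 2]) N : ℝ) +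
      (pairCount a b c h t₀ α β (fun t d => U t d ≡ 1 [MOD 2] ∧ V t d ≡ 0 [MOD 2]) N : ℝ) := by
  classical
  simp only [pc_sum hf, ← Finset.sum_add_distrib]
  refine Finset.sum_congr rfl fun t _ => Finset.sum_congr rfl fun d _ => ?_
  have k1 : ∀ x y : ℕ, x ≡ y [MOD 2] ↔ x % 2 = y % 2 := fun x y => Iff.rfl
  simp only [k1]
  rcases Nat.mod_two_eq_zero_or_one (U t d) with hX | hX <;>
  rcases Nat.mod_two_eq_zero_or_one (V t d) with hY | hY <;>
  simp [hX, hY, Nat.add_mod]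

/-- **three slots**: the laws of the pairs give all eight patterns, if a shift of the first window
relates two triples to a pair -/
theorem three (hf : ∀ t : ℕ, fv a b c t ≠ 0) {α β α' κ κ' : ℝ} {j K : ℕ} (hj : h ∣ j)
    (hα' : ∀ t d : ℕ, α' * t ≤ d → α * (t + j * d) ≤ d) (hαα : α ≤ α') (hβ : 0 ≤ β)
    (hK : 1 + j * β ≤ K) (hκ' : 0 < κ') {X Y Z U V : ℕ → ℕ → ℕ}
    (hXY : PLaw a b c h t₀ α β κ X Y) (hXZ : PLaw a b c h t₀ α β κ X Z)
    (hYZ : PLaw a b c h t₀ α β κ Y Z) (hUV : PLaw a b c h t₀ α' β κ' U V)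
    (hrel : ∀ t : ℕ, ∀ d ∈ nearG a b c α' β t,
      X t d + Y t d + Z t d + (X (t + j * d) d + Y (t + j * d) d + Z (t + j * d) d) ≡
        U t d + V t d [MOD 2]) (r s u : ℕ) :
    ∃ c' : ℝ, 0 < c' ∧ ∀ᶠ N : ℕ in atTop, c' * N ≤
      (pairCount a b c h t₀ α β (fun t d => X t d ≡ r [MOD 2] ∧ Y t d ≡ s [MOD 2] ∧
        Z t d ≡ u [MOD 2]) N : ℝ) := by
  have hK1 : (1 : ℝ) ≤ K := by
    have : (0 : ℝ) ≤ j * β := by positivity
    linarith
  have hKp : 0 < K := by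
    have : (0 : ℝ) < K := by linarith
    exact_mod_cast this
  set P : ℕ → ℕ → Prop := fun t d => X t d ≡ r [MOD 2] ∧ Y t d ≡ s [MOD 2] ∧
    Z t d ≡ u [MOD 2] with hP
  set ε : ℝ := κ' / (8 * (1 + 6 * K)) with hε
  have hε0 : 0 < ε := by positivity
  -- the bad scales
  set E1 := {N : ℕ | ε * N < |(pairCount a b c h t₀ α β
    (fun t d => X t d ≡ r [MOD 2] ∧ Z t d ≡ u + 1 [MOD 2]) N : ℝ) - κ / 4 * N|} with hE1
  set E2 := {N : ℕ | ε * N < |(pairCount a b c h t₀ α β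
    (fun t d => X t d ≡ r [MOD 2] ∧ Y t d ≡ s [MOD 2]) N : ℝ) - κ / 4 * N|} with hE2
  set E3 := {N : ℕ | ε * N < |(pairCount a b c h t₀ α β
    (fun t d => Y t d ≡ s [MOD 2] ∧ Z t d ≡ u + 1 [MOD 2]) N : ℝ) - κ / 4 * N|} with hE3
  set E4 := {N : ℕ | ε * N < |(pairCount a b c h t₀ α β
    (fun t d => Y t d ≡ s + 1 [MOD 2] ∧ Z t d ≡ u [MOD 2]) N : ℝ) - κ / 4 * N|} with hE4
  set E5 := {N : ℕ | ε * N < |(pairCount a b c h t₀ α β
    (fun t d => X t d ≡ r [MOD 2] ∧ Z t d ≡ u [MOD 2]) N : ℝ) - κ / 4 * N|} with hE5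
  set E6 := {N : ℕ | ε * N < |(pairCount a b c h t₀ α' β
    (fun t d => U t d ≡ 0 [MOD 2] ∧ V t d ≡ 1 [MOD 2]) N : ℝ) - κ' / 4 * N|} with hE6
  set E7 := {N : ℕ | ε * N < |(pairCount a b c h t₀ α' β
    (fun t d => U t d ≡ 1 [MOD 2] ∧ V t d ≡ 0 [MOD 2]) N : ℝ) - κ' / 4 * N|} with hE7
  have hbad : LogNull ({N : ℕ | K * N ∈ E1 ∪ (E2 ∪ (E3 ∪ (E4 ∪ E5)))} ∪ (E6 ∪ E7)) := by
    refine logNull_union (logNull_dil (logNull_union (hXZ _ _ _ hε0) (logNull_union
      (hXY _ _ _ hε0) (logNull_union (hYZ _ _ _ hε0) (logNull_union (hYZ _ _ _ hε0)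
        (hXZ _ _ _ hε0))))) hKp) (logNull_union (hUV _ _ _ hε0) (hUV _ _ _ hε0))
  have hmono : Monotone (fun N : ℕ => (pairCount a b c h t₀ α β P (K * N) : ℝ)) := by
    intro m n hmn
    exact Nat.cast_le.2 (pc_mono P (Nat.mul_le_mul_left K hmn))
  obtain ⟨c0, hc0, hev⟩ := lower_all' hmono (κ := κ' / 64) (by positivity) (by
    refine LogNull.mono hbad fun N hN => ?_
    rw [Set.mem_setOf_eq] at hN
    by_contra hcon
    rw [Set.mem_union, not_or, Set.mem_union, not_or, Set.mem_setOf_eq, Set.mem_union, not_or,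
      Set.mem_union, not_or, Set.mem_union, not_or, Set.mem_union, not_or] at hcon
    obtain ⟨⟨g1, g2, g3, g4, g5⟩, g6, g7⟩ := hcon
    simp only [hE1, hE2, hE3, hE4, hE5, hE6, hE7, Set.mem_setOf_eq, not_lt] at g1 g2 g3 g4 g5 g6 g7
    rw [abs_le] at g1 g2 g3 g4 g5 g6 g7
    -- the class of parities
    have h1 := pc_parity (h := h) (t₀ := t₀) hf α β X Y Z r s u (K * N)
    have h2 := pc_diff (h := h) (t₀ := t₀) hf α' β U V N
    have h3 := pc_shift (t₀ := t₀) hf hj hα' hαα hβ hK (fun t d => U t d + V t d ≡ 1 [MOD 2])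
      (fun t d => X t d + Y t d + Z t d ≡ r + s + u [MOD 2]) (by
        intro t d hd hUV
        have h4 := hrel t d hd
        simp only [Nat.ModEq] at hUV h4 ⊢
        omega) N
    have h5 : pairCount a b c h t₀ α β (fun t d => X t d + Y t d + Z t d ≡ r + s + u [MOD 2]) N ≤
        pairCount a b c h t₀ α β (fun t d => X t d + Y t d + Z t d ≡ r + s + u [MOD 2]) (K * N) :=
      pc_mono _ (Nat.le_mul_of_pos_left N hKp)
    have h6 : (pairCount a b c h t₀ α' β (fun t d => U t d + V t d ≡ 1 [MOD 2]) N : ℝ) ≤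
        2 * (pairCount a b c h t₀ α β (fun t d => X t d + Y t d + Z t d ≡ r + s + u [MOD 2])
          (K * N) : ℝ) := by
      have h7 : pairCount a b c h t₀ α' β (fun t d => U t d + V t d ≡ 1 [MOD 2]) N ≤
          2 * pairCount a b c h t₀ α β (fun t d => X t d + Y t d + Z t d ≡ r + s + u [MOD 2])
            (K * N) := by omega
      exact_mod_cast h7
    rw [h1, h2] at h6
    push_cast at g1 g2 g3 g4 g5 h6 hN
    have hN0 : (0 : ℝ) ≤ N := Nat.cast_nonneg _
    have hNn : (N : ℝ) = 0 ∨ 0 < (N : ℝ) := hN0.eq_or_lt.imp Eq.symm id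
    have h8 : ε * (1 + 6 * K) = κ' / 8 := by
      rw [hε]
      field_simp
    have h9 : (pairCount a b c h t₀ α β P (K * N) : ℝ) < κ' / 64 * N := hN
    have h10 : (0 : ℝ) ≤ (pairCount a b c h t₀ α β P (K * N) : ℝ) := Nat.cast_nonneg _
    have h11 : ε * (N * (1 + 6 * K)) = κ' / 8 * N := by
      rw [← h8]
      ring
    have h12 : κ' / 2 * N - 2 * (ε * N) ≤ 8 * (pairCount a b c h t₀ α β P (K * N) : ℝ) +
        12 * (ε * (K * N)) := by
      have e1 := g1.2
      have e2 := g2.1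
      have e3 := g3.2
      have e4 := g4.2
      have e5 := g5.1
      have e6 := g6.1
      have e7 := g7.1
      linarith
    have h13 : 2 * (ε * N) + 12 * (ε * (K * N)) = 2 * (κ' / 8 * N) := by
      rw [← h11]
      ring
    have h14 : 0 < κ' / 64 * N := lt_of_le_of_lt h10 h9
    linarith)
  -- all scales
  refine ⟨c0 / (2 * K), by positivity, ?_⟩
  obtain ⟨N0, hN0⟩ := Filter.eventually_atTop.1 hev
  filter_upwards [eventually_ge_atTop (K * (N0 + 1))] with n hn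
  set m := n / K with hm
  have hm1 : N0 + 1 ≤ m := (Nat.le_div_iff_mul_le hKp).2 (by rw [mul_comm]; exact hn)
  have h1 := hN0 m (by omega)
  have h2 : K * m ≤ n := Nat.mul_div_le n K
  have h3 : (pairCount a b c h t₀ α β P (K * m) : ℝ) ≤ pairCount a b c h t₀ α β P n :=
    Nat.cast_le.2 (pc_mono P h2)
  have h4 : n < K * (m + 1) := by
    have := Nat.lt_mul_div_succ n hKp
    exact this
  have h5 : (n : ℝ) ≤ K * (2 * m) := by
    have h6 : n ≤ K * (2 * m) := h4.le.trans (Nat.mul_le_mul_left K (by omega))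
    exact_mod_cast h6
  calc c0 / (2 * K) * n ≤ c0 / (2 * K) * (K * (2 * m)) :=
        mul_le_mul_of_nonneg_left h5 (by positivity)
    _ = c0 * m := by field_simp
    _ ≤ _ := h1.trans h3

end counts

end Pool.Agent.Lib.MP_a17b09_nt.TP79
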